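import Pool.Agent.Helper81.LT.Mod

/-!
Packet CONV: every model of `PA` carries the algebraic structure.
-/

namespace Pool.Agent.Helper73.LT

open FirstOrder Language Pool.Agent.Helper81.LT

section

attribute [local instance] stdStr

variable {M : Type} [Zero M] [One M] [Add M] [Mul M] [LT M] (h : M ⊨ PA)
include h

theorem ax_add_assoc : ∀ a b c : M, a + b + c = a + (b + c) :=
  h.realize_of_mem _ (Or.inl PABase.add_assoc)

theorem ax_add_comm : ∀ a b : M, a + b = b + a :=
  h.realize_of_mem _ (Or.inl PABase.add_comm)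

theorem ax_add_zero : ∀ a : M, a + 0 = a :=
  h.realize_of_mem _ (Or.inl PABase.add_zero)

theorem ax_mul_assoc : ∀ a b c : M, a * b * c = a * (b * c) :=
  h.realize_of_mem _ (Or.inl PABase.mul_assoc)

theorem ax_mul_comm : ∀ a b : M, a * b = b * a :=
  h.realize_of_mem _ (Or.inl PABase.mul_comm)

theorem ax_mul_zero : ∀ a : M, a * 0 = 0 :=
  h.realize_of_mem _ (Or.inl PABase.mul_zero)

theorem ax_mul_one : ∀ a : M, a * 1 = a :=
  h.realize_of_mem _ (Or.inl PABase.mul_one)

theorem ax_mul_add : ∀ a b c : M, a * (b + c) = a * b + a * c :=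
  h.realize_of_mem _ (Or.inl PABase.mul_add)

theorem ax_lt_trans : ∀ a b c : M, a < b → b < c → a < c :=
  h.realize_of_mem _ (Or.inl PABase.lt_trans)

theorem ax_lt_irrefl : ∀ a : M, ¬ a < a :=
  h.realize_of_mem _ (Or.inl PABase.lt_irrefl)

theorem ax_lt_total : ∀ a b : M, a < b ∨ a = b ∨ b < a := by
  intro a b
  have h1 := h.realize_of_mem _ (Or.inl PABase.lt_total)
  have h2 : ¬ (¬ a < b → a = b) → b < a := h1 a b
  tauto

theorem ax_add_lt : ∀ a b c : M, a < b → a + c < b + c :=
  h.realize_of_mem _ (Or.inl PABase.add_lt)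

theorem ax_mul_lt : ∀ a b c : M, 0 < c → a < b → a * c < b * c :=
  h.realize_of_mem _ (Or.inl PABase.mul_lt)

theorem ax_sub : ∀ a b : M, a < b → ∃ c, a + c = b := by
  intro a b hab
  have h1 := h.realize_of_mem _ (Or.inl PABase.sub)
  have h2 : a < b → ¬ ∀ c, ¬ (a + c = b) := h1 a b
  have h3 := h2 hab
  push Not at h3
  exact h3

theorem ax_zero_lt_one : (0 : M) < 1 :=
  h.realize_of_mem _ (Or.inl PABase.zero_lt_one)

theorem ax_discrete : ∀ a : M, 0 < a → (1 = a ∨ 1 < a) := by
  intro a ha
  have h1 := h.realize_of_mem _ (Or.inl PABase.discrete)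
  have h2 : 0 < a → ¬ (1 = a) → 1 < a := h1 a
  have h3 := h2 ha
  tauto

theorem ax_nonneg : ∀ a : M, 0 = a ∨ 0 < a := by
  intro a
  have h1 := h.realize_of_mem _ (Or.inl PABase.nonneg)
  have h2 : ¬ (0 = a) → 0 < a := h1 a
  tauto

theorem ax_ind (k : ℕ) (φ : LA.Formula (Fin k ⊕ Unit)) (p : Fin k → M)
    (h0 : φ.Realize (Sum.elim p fun _ => 0))
    (h1 : ∀ x : M, φ.Realize (Sum.elim p fun _ => x) → φ.Realize (Sum.elim p fun _ => x + 1)) :
    ∀ x : M, φ.Realize (Sum.elim p fun _ => x) := by
  have h2 := h.realize_of_mem _ (Or.inr ⟨k, φ, rfl⟩)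
  unfold induction at h2
  rw [Sentence.Realize, Formula.realize_iAlls] at h2
  have h3 := h2 p
  have e0 : ∀ ψ : LA.Formula (Fin k), (Formula.relabel (Sum.inr : Fin k → Empty ⊕ Fin k) ψ).Realize
      (fun a => Sum.elim (default : Empty → M) p a) ↔ ψ.Realize p := by
    intro ψ
    rw [Formula.realize_relabel]
    rfl
  rw [e0, Formula.realize_imp, Formula.realize_imp, Formula.realize_iAlls,
    Formula.realize_iAlls] at h3
  have e1 : Formula.Realize (φ.subst (Sum.elim Term.var fun _ => 0) : LA.Formula (Fin k)) p ↔
      φ.Realize (Sum.elim p fun _ => 0) := by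
    rw [Formula.Realize, BoundedFormula.realize_subst, ← Formula.Realize]
    have : (fun a : Fin k ⊕ Unit => ((Sum.elim Term.var (fun _ => 0) a : LA.Term (Fin k))).realize p)
        = Sum.elim p fun _ => 0 := by
      funext a
      rcases a with a | a <;> rfl
    rw [this]
  have h4 := h3 (e1.2 h0) (by
    intro x
    rw [Formula.realize_imp]
    intro hx
    rw [Formula.Realize, BoundedFormula.realize_subst, ← Formula.Realize]
    have hx2 : φ.Realize (Sum.elim p fun _ => x ()) := by
      have : (fun a => Sum.elim p x a) = Sum.elim p fun _ => x () := by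
        funext a
        rcases a with a | a <;> rfl
      rw [← this]; exact hx
    have h5 := h1 (x ()) hx2
    have : (fun a : Fin k ⊕ Unit => ((Sum.elim (fun i => Term.var (Sum.inl i))
        (fun _ => Term.var (Sum.inr ()) + 1) a : LA.Term (Fin k ⊕ Unit))).realize
          (fun a => Sum.elim p x a)) = Sum.elim p fun _ => x () + 1 := by
      funext a
      rcases a with a | a <;> rfl
    rw [this]
    exact h5)
  intro x
  have h6 := h4 (fun _ => x)
  exact h6

theorem ax_dfn (P : M → Prop) (hP : Dfn (fun v : Unit → M => P (v ()))) (h0 : P 0)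
    (h1 : ∀ x, P x → P (x + 1)) : ∀ x, P x := by
  classical
  obtain ⟨φ, hφ⟩ := hP
  let e := φ.freeVarFinset.equivFin
  let f : φ.freeVarFinset → Fin (φ.freeVarFinset.card) ⊕ Unit := fun a =>
    match a.1 with
    | Sum.inl _ => Sum.inr ()
    | Sum.inr _ => Sum.inl (e a)
  let p : Fin (φ.freeVarFinset.card) → M := fun i =>
    match (e.symm i).1 with
    | Sum.inl _ => 0
    | Sum.inr m => m
  have key : ∀ x : M, Formula.Realize (BoundedFormula.restrictFreeVar φ f :
      LA.Formula (Fin (φ.freeVarFinset.card) ⊕ Unit)) (Sum.elim p fun _ => x) ↔ P x := by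
    intro x
    have h1 := BoundedFormula.realize_restrictFreeVar (φ := φ) (f := f)
      (v := Sum.elim p fun _ => x) (xs := (default : Fin 0 → M)) (Sum.elim (fun _ => x) id) (by
        rintro ⟨a, ha⟩
        rcases a with a | m
        · rfl
        · show p (e ⟨Sum.inr m, ha⟩) = m
          simp only [p, Equiv.symm_apply_apply])
    exact h1.trans (hφ (fun _ => x))
  intro x
  rw [← key]
  apply ax_ind h
  · rw [key]; exact h0
  · intro y hy
    rw [key] at hy ⊢
    exact h1 y hy

theorem main : ∃ (A : CommSemiring M) (B : LinearOrder M) (_ : IsStrictOrderedRing M),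
    @stdStr M A.toZero A.toOne (@Distrib.toAdd M _) (@Distrib.toMul M _) B.toLT = stdStr M ∧
      PAM M := by
  classical
  let A : CommSemiring M :=
    { add := (· + ·)
      zero := 0
      mul := (· * ·)
      one := 1
      add_assoc := ax_add_assoc h
      zero_add := fun a => (ax_add_comm h 0 a).trans (ax_add_zero h a)
      add_zero := ax_add_zero h
      add_comm := ax_add_comm h
      nsmul := nsmulRec
      left_distrib := ax_mul_add h
      right_distrib := fun a b c => by
        show (a + b) * c = a * c + b * c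
        rw [ax_mul_comm h, ax_mul_add h, ax_mul_comm h c a, ax_mul_comm h c b]
      zero_mul := fun a => (ax_mul_comm h 0 a).trans (ax_mul_zero h a)
      mul_zero := ax_mul_zero h
      mul_assoc := ax_mul_assoc h
      one_mul := fun a => (ax_mul_comm h 1 a).trans (ax_mul_one h a)
      mul_one := ax_mul_one h
      mul_comm := ax_mul_comm h }
  have hSTO : IsStrictTotalOrder M ((· < ·) : M → M → Prop) :=
    { trichotomous := by
        intro a b h1 h2
        rcases ax_lt_total h a b with h3 | h3 | h3
        · exact absurd h3 h1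
        · exact h3
        · exact absurd h3 h2
      irrefl := ax_lt_irrefl h
      trans := ax_lt_trans h }
  let B : LinearOrder M := linearOrderOfSTO (· < ·)
  have hle : ∀ a b : M, a ≤ b ↔ a = b ∨ a < b := fun a b => Iff.rfl
  have hadd_lt : ∀ a b c : M, a < b → a + c < b + c := ax_add_lt h
  have hadd_le : ∀ a b c : M, a ≤ b → a + c ≤ b + c := by
    intro a b c hab
    rcases (hle a b).1 hab with h1 | h1
    · rw [h1]
    · exact (hle _ _).2 (Or.inr (hadd_lt a b c h1))
  have hR : IsStrictOrderedRing M :=
    { add_le_add_left := fun a b hab c => hadd_le a b c hab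
      le_of_add_le_add_left := by
        intro a b c hab
        by_contra hcon
        have h1 : c < b := not_le.1 hcon
        have h2 := hadd_lt c b a h1
        have h3 : c + a < c + a := by
          rw [add_comm b a, add_comm c a] at h2
          rw [add_comm c a]
          exact lt_of_lt_of_le h2 hab
        exact lt_irrefl _ h3
      zero_le_one := (hle _ _).2 (Or.inr (ax_zero_lt_one h))
      exists_pair_ne := ⟨0, 1, (ax_zero_lt_one h).ne⟩
      mul_lt_mul_of_pos_left := by
        intro a ha b c hbc
        have h1 := ax_mul_lt h b c a ha hbc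
        rw [ax_mul_comm h b a, ax_mul_comm h c a] at h1
        exact h1
      mul_lt_mul_of_pos_right := by
        intro a ha b c hbc
        exact ax_mul_lt h b c a ha hbc }
  refine ⟨A, B, hR, rfl, ?_⟩
  refine { zero_le := ?_, succ_le := ?_, exists_add := ?_, ind := ?_ }
  · intro x
    rcases ax_nonneg h x with h1 | h1
    · exact (hle _ _).2 (Or.inl h1)
    · exact (hle _ _).2 (Or.inr h1)
  · intro x y hxy
    obtain ⟨z, hz⟩ := ax_sub h x y hxy
    have hz' : x + z = y := hz
    rcases ax_nonneg h z with h1 | h1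
    · exfalso
      have h1' : (0 : M) = z := h1
      rw [← h1', add_zero] at hz'
      rw [hz'] at hxy
      exact lt_irrefl _ hxy
    · have h2 : (1 : M) ≤ z := by
        rcases ax_discrete h z h1 with h3 | h3
        · exact (hle _ _).2 (Or.inl h3)
        · exact (hle _ _).2 (Or.inr h3)
      have h3 := hadd_le 1 z x h2
      rw [add_comm 1 x, add_comm z x, hz'] at h3
      exact h3
  · intro x y hxy
    rcases (hle x y).1 hxy with h1 | h1
    · exact ⟨0, by rw [add_zero, h1]⟩
    · obtain ⟨z, hz⟩ := ax_sub h x y h1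
      exact ⟨z, hz.symm⟩
  · intro P hP h0 h1
    exact ax_dfn h P hP h0 h1

end

theorem conv : CONV := by
  intro M S h
  let _ : Zero M := ⟨S.funMap AFun.zero ![]⟩
  let _ : One M := ⟨S.funMap AFun.one ![]⟩
  let _ : Add M := ⟨fun a b => S.funMap AFun.add ![a, b]⟩
  let _ : Mul M := ⟨fun a b => S.funMap AFun.mul ![a, b]⟩
  let _ : LT M := ⟨fun a b => S.RelMap ARel.lt ![a, b]⟩
  have hS : stdStr M = S := by
    apply Language.Structure.ext
    · funext n f v
      cases f with
      | zero => exact congrArg (S.funMap AFun.zero) (Subsingleton.elim _ _)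
      | one => exact congrArg (S.funMap AFun.one) (Subsingleton.elim _ _)
      | add =>
        refine congrArg (S.funMap AFun.add) ?_
        funext i
        fin_cases i <;> rfl
      | mul =>
        refine congrArg (S.funMap AFun.mul) ?_
        funext i
        fin_cases i <;> rfl
    · funext n r v
      cases r with
      | lt =>
        refine congrArg (S.RelMap ARel.lt) ?_
        funext i
        fin_cases i <;> rfl
  have h' : @Theory.Model LA M (stdStr M) PA := by rw [hS]; exact h
  obtain ⟨A, B, C, h1, h2⟩ := main h'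
  exact ⟨A, B, C, h1.trans hS, h2⟩

end Pool.Agent.Helper73.LT
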