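import Pool.Agent.Helper81.LT.Inc

/-!
Packet PRIME: a countable nonstandard prime model of `PA`.
-/

namespace Pool.Agent.Helper73.LT

open FirstOrder Language Pool.Agent.Helper81.LT

section

attribute [local instance] stdStr

theorem lt_nat {M : Type} [CommSemiring M] [LinearOrder M] [IsStrictOrderedRing M] [PAM M]
    (x : M) : ∀ n : ℕ, x < (n : M) → ∃ k : ℕ, x = k
  | 0, h => by
    rw [Nat.cast_zero] at h
    exact absurd h (not_lt.2 (PAM.zero_le x))
  | n + 1, h => by
    rcases lt_trichotomy x (n : M) with h1 | h1 | h1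
    · exact lt_nat x n h1
    · exact ⟨n, h1⟩
    · rw [Nat.cast_succ] at h
      exact absurd h (not_lt.2 (PAM.succ_le _ _ h1))

theorem all_nat {M : Type} [CommSemiring M] [LinearOrder M] [IsStrictOrderedRing M] [PAM M]
    (h : ¬ ∃ a : M, ∀ n : ℕ, (n : M) < a) (a : M) : ∃ n : ℕ, a = n := by
  push Not at h
  obtain ⟨n, hn⟩ := h a
  refine lt_nat a (n + 1) (lt_of_le_of_lt hn ?_)
  rw [Nat.cast_succ]
  exact lt_add_one _

theorem prime (hC : CONV) (hP : PRM) (hS : STDEQ) (hc : CNT) (hn : NONEQ) : PRIME := by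
  obtain ⟨M, S, hpa, σ, hσ, hσ'⟩ := hn
  obtain ⟨A, B, C, hst, hpam⟩ := hC M S hpa
  subst hst
  obtain ⟨N, hN⟩ := hP M
  have hNpa : @Theory.Model LA N _ PA := (N.theory_model_iff PA).2 hpa
  have hdef : ∀ a : N, ∃ φ : LA.Formula Unit, ∀ x : N,
      @Formula.Realize LA N (inferInstance) _ φ (fun _ => x) ↔ x = a := by
    intro a
    obtain ⟨φ, hφ⟩ := (hN a.1).1 a.2
    refine ⟨φ, fun x => ?_⟩
    have h1 := N.subtype.map_formula φ (fun _ => x)
    rw [← h1]
    have h2 := hφ x.1
    refine Iff.trans ?_ (h2.trans Subtype.ext_iff.symm)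
    exact Iff.rfl
  have hcount : Countable N := by
    choose f hf using hdef
    have : Countable (LA.Formula Unit) := hc Unit inferInstance
    refine Function.Injective.countable (f := f) ?_
    intro a b hab
    have h1 := (hf a a).2 rfl
    rw [hab] at h1
    exact (hf b a).1 h1
  obtain ⟨A', B', C', hst', hpam'⟩ := hC N inferInstance hNpa
  refine ⟨N, A', B', C', hpam', ?_, hcount, ?_, ?_⟩
  · rw [hst']; exact hNpa
  · by_contra hcon
    have h1 := hS N (all_nat hcon) σ
    rw [hst'] at h1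
    have h2 := h1.2 hσ
    exact hσ' ((N.realize_sentence σ).1 h2)
  · rw [hst']
    exact hdef

end

end Pool.Agent.Helper73.LT
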